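import Pool.Agent.CableTerm.TreeLB

set_option autoImplicit false

/-!
# MP_d70946_co, Q1: the inequality `rw(G) ≤ ⌊sfw(G)/2⌋` fails

There is a graph on 13 vertices with split-free cable term width at most `7` and rank-width at
least `4`.
-/

namespace Pool.Agent.Results.MP_d70946_co.Disproof

open Pool.Agent.CableTerm

theorem result : ∃ G : SimpleGraph (Fin 13),
    sfw G ≤ 7 ∧ 4 ≤ rankWidth G ∧ ¬ (rankWidth G ≤ sfw G / 2) := by
  refine ⟨exG, sfw_le, four_le_rankWidth, ?_⟩
  have h1 := sfw_le
  have h2 := four_le_rankWidth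
  omega

end Pool.Agent.Results.MP_d70946_co.Disproof
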